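import Pool.Agent.Helper33.TVT.Main

/-!
# A star in a slab of `2 l + 1` points, in the plane (MP_92efc2)
-/

set_option autoImplicit false

namespace Pool.Agent.Helper71.TVP

open Finset Pool.Agent.Helper33.TVT

variable {E : Type*} [AddCommGroup E] [Module ℝ E]

/-- the non-crossing matching of two separated sets -/
theorem matching {f g : E →ₗ[ℝ] ℝ} (n : ℕ) : ∀ L R : Finset E, L.card = n → R.card = n →
    (∀ x ∈ L, ∀ y ∈ R, f x < f y) → (∀ T : Finset E, (∀ x ∈ T, x ∈ L ∨ x ∈ R) → Gen f g T) →
    ∃ a b : Fin n → E, (∀ x, x ∈ L ↔ ∃ i, a i = x) ∧ (∀ x, x ∈ R ↔ ∃ i, b i = x) ∧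
      ∀ i j, i ≠ j → ¬ Meet ({a i, b i} : Set E) ({a j, b j} : Set E) := by
  classical
  induction n with
  | zero =>
    intro L R hL hR _ _
    rw [card_eq_zero] at hL hR
    subst hL
    subst hR
    exact ⟨fun i => i.elim0, fun i => i.elim0, fun x => by simp, fun x => by simp, fun i => i.elim0⟩
  | succ n ih =>
    intro L R hL hR hlt hG
    have hH : ∃ H : Set E, Convex ℝ H ∧ Convex ℝ Hᶜ ∧ (∃ N' : Finset E, N'.card = 1 ∧ ∀ x, x ∈ N' ↔ x ∈ L ∧ x ∈ H) ∧
        ∃ F' : Finset E, F'.card = 1 ∧ ∀ x, x ∈ F' ↔ x ∈ R ∧ x ∈ H := by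
      rcases Nat.eq_zero_or_pos n with h0 | h0
      · exact ⟨Set.univ, convex_univ, by rw [Set.compl_univ]; exact convex_empty, ⟨L, by omega, fun x => by simp⟩,
          R, by omega, fun x => by simp⟩
      · exact cut (hG (L ∪ R) fun x hx => mem_union.1 hx) hlt le_rfl (by omega) (by omega)
    obtain ⟨H, hH, hH', ⟨N', hN', hN''⟩, F', hF', hF''⟩ := hH
    obtain ⟨x₀, rfl⟩ := card_eq_one.1 hN'
    obtain ⟨y₀, rfl⟩ := card_eq_one.1 hF'
    have hx₀ := (hN'' x₀).1 (mem_singleton_self _)
    have hy₀ := (hF'' y₀).1 (mem_singleton_self _)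
    have hxH : ∀ x ∈ L.erase x₀, x ∉ H := by
      intro x hx hxH
      rw [mem_erase] at hx
      exact hx.1 (mem_singleton.1 ((hN'' x).2 ⟨hx.2, hxH⟩))
    have hyH : ∀ x ∈ R.erase y₀, x ∉ H := by
      intro x hx hxH
      rw [mem_erase] at hx
      exact hx.1 (mem_singleton.1 ((hF'' x).2 ⟨hx.2, hxH⟩))
    obtain ⟨a, b, ha, hb, hab⟩ := ih (L.erase x₀) (R.erase y₀) (by rw [card_erase_of_mem hx₀.1]; omega)
      (by rw [card_erase_of_mem hy₀.1]; omega)
      (fun x hx y hy => hlt x (mem_of_mem_erase hx) y (mem_of_mem_erase hy))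
      (fun T hT => hG T fun x hx => (hT x hx).imp mem_of_mem_erase mem_of_mem_erase)
    have key : ∀ i, ¬ Meet ({x₀, y₀} : Set E) ({a i, b i} : Set E) := by
      intro i
      refine not_meet_of_convex hH hH' ?_ ?_
      · rintro x (hx | hx)
        · rw [hx]; exact hx₀.2
        · rw [Set.mem_singleton_iff.1 hx]; exact hy₀.2
      · rintro x (hx | hx)
        · rw [hx]; exact hxH _ ((ha _).2 ⟨i, rfl⟩)
        · rw [Set.mem_singleton_iff.1 hx]; exact hyH _ ((hb _).2 ⟨i, rfl⟩)
    refine ⟨Fin.cons x₀ a, Fin.cons y₀ b, ?_, ?_, ?_⟩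
    · intro x
      rw [Fin.exists_fin_succ]
      simp only [Fin.cons_zero, Fin.cons_succ]
      rw [← ha x, mem_erase]
      by_cases h : x = x₀
      · rw [h]
        exact ⟨fun _ => Or.inl rfl, fun _ => hx₀.1⟩
      · exact ⟨fun hx => Or.inr ⟨h, hx⟩, fun hx => hx.elim (fun h' => absurd h'.symm h) fun h' => h'.2⟩
    · intro x
      rw [Fin.exists_fin_succ]
      simp only [Fin.cons_zero, Fin.cons_succ]
      rw [← hb x, mem_erase]
      by_cases h : x = y₀
      · rw [h]
        exact ⟨fun _ => Or.inl rfl, fun _ => hy₀.1⟩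
      · exact ⟨fun hx => Or.inr ⟨h, hx⟩, fun hx => hx.elim (fun h' => absurd h'.symm h) fun h' => h'.2⟩
    · intro i j hij
      rcases Fin.eq_zero_or_eq_succ i with rfl | ⟨i', rfl⟩
      · rcases Fin.eq_zero_or_eq_succ j with rfl | ⟨j', rfl⟩
        · exact absurd rfl hij
        · simp only [Fin.cons_zero, Fin.cons_succ]
          exact key j'
      · rcases Fin.eq_zero_or_eq_succ j with rfl | ⟨j', rfl⟩
        · simp only [Fin.cons_zero, Fin.cons_succ]
          exact fun h => key i' h.symm
        · simp only [Fin.cons_succ]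
          exact hab i' j' fun h => hij (by rw [h])

/-- a third point is not on the segment of two points -/
theorem not_mem_seg {f g : E →ₗ[ℝ] ℝ} {S : Finset E} (hG : Gen f g S) {a b q : E} (ha : a ∈ S) (hb : b ∈ S)
    (hq : q ∈ S) (hab : a ≠ b) (haq : a ≠ q) (hbq : b ≠ q) : q ∉ convexHull ℝ ({a, b} : Set E) := by
  rw [convexHull_pair]
  rintro ⟨u, v, hu, hv, huv, rfl⟩
  have hfab : f b - f a ≠ 0 := fun h => hab (hG.inj ha hb (by linarith))
  set t : ℝ := (g b - g a) / (f b - f a) with ht
  have e1 : g b - g a = t * (f b - f a) := by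
    rw [ht]
    field_simp
  have hu1 : u = 1 - v := by linarith
  refine hG.line t a ha b hb _ hq hab haq hbq (by linarith) ?_
  rw [map_add, map_add, map_smul, map_smul, map_smul, map_smul, smul_eq_mul, smul_eq_mul, smul_eq_mul, smul_eq_mul, hu1]
  linear_combination (-v) * e1

/-- in the plane `(f, g)` is injective -/
theorem inj_plane [FiniteDimensional ℝ E] (hd : Module.finrank ℝ E = 2) {f g : E →ₗ[ℝ] ℝ} {S : Finset E}
    (hG : Gen f g S) (hc : 3 ≤ S.card) (w : E) (hf : f w = 0) (hg : g w = 0) : w = 0 := by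
  classical
  obtain ⟨T, hT, hT3⟩ := exists_subset_card_eq hc
  obtain ⟨x, y, z, hxy, hxz, hyz, rfl⟩ := card_eq_three.1 hT3
  have hx : x ∈ S := hT (by simp)
  have hy : y ∈ S := hT (by simp)
  have hz : z ∈ S := hT (by simp)
  have hfxy : f (y - x) ≠ 0 := fun h => hxy (hG.inj hx hy (by rw [map_sub] at h; linarith))
  set t : ℝ := g (y - x) / f (y - x) with ht
  have e1 : g (y - x) = t * f (y - x) := by
    rw [ht]
    field_simp
  have e2 : g (z - x) - t * f (z - x) ≠ 0 := by
    have h1 := hG.line t x hx y hy z hz hxy hxz hyz (by rw [map_sub, map_sub] at e1; linarith)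
    intro h2
    rw [map_sub, map_sub] at h2
    exact h1 (by linarith)
  let Φ : E →ₗ[ℝ] ℝ × ℝ := f.prod g
  have hsurj : Function.Surjective Φ := by
    rintro ⟨α, β⟩
    set c₂ : ℝ := (β - t * α) / (g (z - x) - t * f (z - x)) with hc₂
    set c₁ : ℝ := (α - c₂ * f (z - x)) / f (y - x) with hc₁
    have e3 : c₂ * (g (z - x) - t * f (z - x)) = β - t * α := by
      rw [hc₂]
      field_simp
    have e4 : c₁ * f (y - x) = α - c₂ * f (z - x) := by
      rw [hc₁]
      field_simp
    refine ⟨c₁ • (y - x) + c₂ • (z - x), ?_⟩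
    show (f _, g _) = (α, β)
    rw [Prod.mk.injEq, map_add, map_add, map_smul, map_smul, map_smul, map_smul, smul_eq_mul, smul_eq_mul, smul_eq_mul,
      smul_eq_mul, e1]
    constructor
    · linarith
    · linear_combination t * e4 + e3
  have hinj : Function.Injective Φ :=
    (LinearMap.injective_iff_surjective_of_finrank_eq_finrank (by rw [hd]; simp)).2 hsurj
  apply hinj
  rw [map_zero]
  show (f w, g w) = 0
  rw [hf, hg]
  rfl

/-- a point of the ray from `p` through `q`, before `q` -/
theorem mem_seg_of_ray {f g : E →ₗ[ℝ] ℝ} (hinj : ∀ w, f w = 0 → g w = 0 → w = 0) {p q z : E} {t : ℝ}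
    (hq : g q - t * f q = g p - t * f p) (hz : g z - t * f z = g p - t * f p) (hpz : f p ≤ f z) (hzq : f z ≤ f q)
    (hpq : f p < f q) : z ∈ convexHull ℝ ({p, q} : Set E) := by
  rw [convexHull_pair]
  set c : ℝ := (f z - f p) / (f q - f p) with hc
  have h0 : 0 < f q - f p := by linarith
  have e1 : c * (f q - f p) = f z - f p := by
    rw [hc]
    field_simp
  refine ⟨1 - c, c, ?_, ?_, by ring, ?_⟩
  · have : c ≤ 1 := by
      rw [hc, div_le_one h0]
      linarith
    linarith
  · rw [hc]
    exact div_nonneg (by linarith) h0.le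
  · have h1 : z - ((1 - c) • p + c • q) = 0 := by
      apply hinj
      · rw [map_sub, map_add, map_smul, map_smul, smul_eq_mul, smul_eq_mul]
        linarith
      · rw [map_sub, map_add, map_smul, map_smul, smul_eq_mul, smul_eq_mul]
        have e2 : g z = g p + t * (f z - f p) := by linarith
        have e3 : g q = g p + t * (f q - f p) := by linarith
        rw [e2, e3]
        linear_combination (-t) * e1
    exact (sub_eq_zero.1 h1).symm

theorem disjoint_of_not_meet {A B : Finset E} (h : ¬ Meet (A : Set E) (B : Set E)) : Disjoint A B := by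
  rw [disjoint_left]
  intro x hx hx'
  exact h ⟨x, subset_convexHull ℝ _ (mem_coe.2 hx), subset_convexHull ℝ _ (mem_coe.2 hx')⟩

/-- **a star with `l` leaves** from `2 l + 1` points `D` and a point `p` before them, in the plane -/
theorem star_plane {f g : E →ₗ[ℝ] ℝ} (hinj : ∀ w, f w = 0 → g w = 0 → w = 0) {p : E} {D S : Finset E}
    (hG : Gen f g S) (hpS : p ∈ S) (hDS : D ⊆ S) (hlt : ∀ x ∈ D, f p < f x) {l : ℕ} (hD : D.card = 2 * l + 1) :
    ∃ (Q : Finset E) (P : Fin l → Finset E), (∀ i, (P i).Nonempty) ∧ (∀ i, Disjoint Q (P i)) ∧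
      (∀ x, x ∈ D ↔ x ∈ Q ∨ ∃ i, x ∈ P i) ∧
      (∀ i, Meet (insert p (Q : Set E)) (P i : Set E)) ∧ ∀ i j, i ≠ j → ¬ Meet (P i : Set E) (P j : Set E) := by
  classical
  let s : E → ℝ := fun x => (g x - g p) / (f x - f p)
  have hs : ∀ x ∈ D, g x - g p = s x * (f x - f p) := by
    intro x hx
    have h1 : f x - f p ≠ 0 := by
      have := hlt x hx
      intro h
      linarith
    simp only [s]
    field_simp
  have hpx : ∀ x ∈ D, p ≠ x := fun x hx h => by
    have := hlt x hx
    rw [← h] at this
    exact lt_irrefl _ this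
  have hsinj : Set.InjOn s D := by
    intro x hx y hy hxy
    by_contra hne
    have h1 := hs x hx
    have h2 := hs y hy
    rw [← hxy] at h2
    exact hG.line (s x) p hpS x (hDS hx) y (hDS hy) (hpx x hx) (hpx y hy) hne (by linarith) (by linarith)
  obtain ⟨q, hq, hqL⟩ := exists_rank D s hsinj l (by omega)
  set L := D.filter (fun y => s y < s q) with hL
  set R := D.filter (fun y => s q < s y) with hR
  have mL : ∀ x, x ∈ L ↔ x ∈ D ∧ s x < s q := fun x => mem_filter
  have mR : ∀ x, x ∈ R ↔ x ∈ D ∧ s q < s x := fun x => mem_filter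
  have qL : q ∉ L := fun h => lt_irrefl _ ((mL q).1 h).2
  have qR : q ∉ R := fun h => lt_irrefl _ ((mR q).1 h).2
  have mD : ∀ x, x ∈ D ↔ x ∈ L ∨ x = q ∨ x ∈ R := by
    intro x
    rw [mL, mR]
    constructor
    · intro hx
      rcases lt_trichotomy (s x) (s q) with h | h | h
      · exact Or.inl ⟨hx, h⟩
      · exact Or.inr (Or.inl (hsinj hx hq h))
      · exact Or.inr (Or.inr ⟨hx, h⟩)
    · rintro (h | h | h)
      · exact h.1
      · rw [h]; exact hq
      · exact h.1
  have hRc : R.card = l := by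
    have h1 : D = L ∪ insert q R := by
      ext x
      rw [mD, mem_union, mem_insert]
    have h2 : Disjoint L (insert q R) := by
      rw [disjoint_left]
      intro x hx hx'
      rw [mem_insert] at hx'
      rcases hx' with rfl | hx'
      · exact qL hx
      · exact lt_irrefl _ (((mL x).1 hx).2.trans ((mR x).1 hx').2)
    have h3 : D.card = L.card + (insert q R).card := by
      conv_lhs => rw [h1]
      exact card_union_of_disjoint h2
    rw [card_insert_of_notMem qR] at h3
    omega
  have hLD : L ⊆ D := fun x hx => ((mL x).1 hx).1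
  have hRD : R ⊆ D := fun x hx => ((mR x).1 hx).1
  -- the slope `t`
  obtain ⟨δ₁, hδ₁, hδ₁'⟩ := exists_delta D s (s q)
  obtain ⟨δ₂, hδ₂, hδ₂'⟩ := exists_delta (D ×ˢ D) (fun z => (g z.1 - g z.2) / (f z.1 - f z.2)) (s q)
  set t : ℝ := s q + min δ₁ δ₂ with ht
  have ht0 : s q < t := by
    have := lt_min hδ₁ hδ₂
    linarith
  have ht1 : ∀ y ∈ R, t < s y := by
    intro y hy
    have h1 := ((mR y).1 hy).2
    have h2 := hδ₁' y (hRD hy) h1.ne'
    rw [abs_of_pos (by linarith)] at h2
    have h3 := min_le_left δ₁ δ₂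
    linarith
  have ht2 : ∀ x ∈ D, ∀ y ∈ D, x ≠ y → g x - t * f x ≠ g y - t * f y := by
    intro x hx y hy hxy h
    have h1 : f x - f y ≠ 0 := fun h1 => hxy (hG.inj (hDS hx) (hDS hy) (by linarith))
    have h2 : (g x - g y) / (f x - f y) = t := by
      rw [div_eq_iff h1]
      linarith
    have h3 := hδ₂' (x, y) (mem_product.2 ⟨hx, hy⟩) (by simp only; rw [h2]; exact ht0.ne')
    simp only at h3
    rw [h2, abs_of_pos (by linarith)] at h3
    have h4 := min_le_right δ₁ δ₂
    linarith
  let f' : E →ₗ[ℝ] ℝ := g - t • f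
  have hf' : ∀ x, f' x = g x - t * f x := fun x => by
    simp only [f', LinearMap.sub_apply, LinearMap.smul_apply, smul_eq_mul]
  have hlt' : ∀ x ∈ L, ∀ y ∈ R, f' x < f' y := by
    intro x hx y hy
    rw [hf', hf']
    have h1 : (s x - t) * (f x - f p) < 0 :=
      mul_neg_of_neg_of_pos (by linarith [((mL x).1 hx).2]) (by linarith [hlt x (hLD hx)])
    have h2 : 0 < (s y - t) * (f y - f p) :=
      mul_pos (by linarith [ht1 y hy]) (by linarith [hlt y (hRD hy)])
    have h3 := hs x (hLD hx)
    have h4 := hs y (hRD hy)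
    nlinarith
  have hgen : ∀ T : Finset E, (∀ x ∈ T, x ∈ L ∨ x ∈ R) → Gen f' f T := by
    intro T hT
    have hTD : ∀ x ∈ T, x ∈ D := fun x hx => (hT x hx).elim (fun h => hLD h) fun h => hRD h
    refine ⟨?_, ?_⟩
    · intro x hx y hy hxy
      by_contra hne
      rw [hf', hf'] at hxy
      exact ht2 x (hTD x hx) y (hTD y hy) hne hxy
    · intro τ x hx y hy z hz hxy hxz hyz h1 h2
      rw [hf', hf'] at h1 h2
      have hx' := hDS (hTD x hx)
      have hy' := hDS (hTD y hy)
      have hz' := hDS (hTD z hz)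
      by_cases hτ : τ = 0
      · rw [hτ] at h1
        exact hxy (hG.inj hx' hy' (by linarith))
      · have e : ∀ w : E, g w - (1 + τ * t) / τ * f w = -(1 / τ) * (f w - τ * (g w - t * f w)) := by
          intro w
          field_simp
          ring
        refine hG.line ((1 + τ * t) / τ) x hx' y hy' z hz' hxy hxz hyz ?_ ?_
        · rw [e x, e y, h1]
        · rw [e x, e z, h2]
  obtain ⟨a, b, ha, hb, hab⟩ := matching l L R hqL hRc hlt' hgen
  have haL : ∀ i, a i ∈ L := fun i => (ha _).2 ⟨i, rfl⟩
  have hbR : ∀ i, b i ∈ R := fun i => (hb _).2 ⟨i, rfl⟩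
  -- the crossing points
  have hz : ∀ i, ∃ z, z ∈ convexHull ℝ ({a i, b i} : Set E) ∧ g z - s q * f z = g p - s q * f p ∧ f p < f z := by
    intro i
    have hA : g (a i) - s q * f (a i) - (g p - s q * f p) < 0 := by
      have h1 : (s (a i) - s q) * (f (a i) - f p) < 0 :=
        mul_neg_of_neg_of_pos (by linarith [((mL _).1 (haL i)).2]) (by linarith [hlt _ (hLD (haL i))])
      have h2 := hs _ (hLD (haL i))
      nlinarith
    have hB : 0 < g (b i) - s q * f (b i) - (g p - s q * f p) := by
      have h1 : 0 < (s (b i) - s q) * (f (b i) - f p) :=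
        mul_pos (by linarith [((mR _).1 (hbR i)).2]) (by linarith [hlt _ (hRD (hbR i))])
      have h2 := hs _ (hRD (hbR i))
      nlinarith
    set A : ℝ := g (a i) - s q * f (a i) - (g p - s q * f p) with hAdef
    set B : ℝ := g (b i) - s q * f (b i) - (g p - s q * f p) with hBdef
    have hBA : 0 < B - A := by linarith
    have hu : 0 < B / (B - A) := div_pos hB hBA
    have hv : 0 < -A / (B - A) := div_pos (by linarith) hBA
    have huv : B / (B - A) + -A / (B - A) = 1 := by
      rw [← add_div, ← sub_eq_add_neg, div_self hBA.ne']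
    have huA : B / (B - A) * A + -A / (B - A) * B = 0 := by
      field_simp
      ring
    set u : ℝ := B / (B - A) with hudef
    set v : ℝ := -A / (B - A) with hvdef
    refine ⟨u • a i + v • b i, ?_, ?_, ?_⟩
    · rw [convexHull_pair]
      exact ⟨u, v, hu.le, hv.le, huv, rfl⟩
    · rw [map_add, map_add, map_smul, map_smul, map_smul, map_smul, smul_eq_mul, smul_eq_mul, smul_eq_mul, smul_eq_mul]
      have e1 : u = 1 - v := by linarith
      rw [hAdef, hBdef, e1] at huA
      rw [e1]
      linarith
    · rw [map_add, map_smul, map_smul, smul_eq_mul, smul_eq_mul]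
      have h1 := mul_pos hu (show 0 < f (a i) - f p by linarith [hlt _ (hLD (haL i))])
      have h2 := mul_pos hv (show 0 < f (b i) - f p by linarith [hlt _ (hRD (hbR i))])
      have e1 : u = 1 - v := by linarith
      rw [e1] at h1 ⊢
      nlinarith
  choose z hz1 hz2 hz3 using hz
  have hq2 : g q - s q * f q = g p - s q * f p := by
    have := hs q hq
    linarith
  have hqa : ∀ i, a i ≠ q := fun i h => qL (h ▸ haL i)
  have hqb : ∀ i, b i ≠ q := fun i h => qR (h ▸ hbR i)
  have hab' : ∀ i, a i ≠ b i := fun i h => by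
    have h1 := ((mL _).1 (haL i)).2
    have h2 := ((mR _).1 (hbR i)).2
    rw [h] at h1
    exact lt_irrefl _ (h1.trans h2)
  have hqseg : ∀ i, q ∉ convexHull ℝ ({a i, b i} : Set E) := fun i =>
    not_mem_seg hG (hDS (hLD (haL i))) (hDS (hRD (hbR i))) (hDS hq) (hab' i) (hqa i) (hqb i)
  have cpair : ∀ i, ((({a i, b i} : Finset E)) : Set E) = {a i, b i} := fun i => by
    rw [coe_insert, coe_singleton]
  by_cases hall : ∀ i, f (z i) ≤ f q
  · refine ⟨{q}, fun i => {a i, b i}, fun i => ⟨a i, by simp⟩, ?_, ?_, ?_, ?_⟩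
    · intro i
      rw [disjoint_singleton_left, mem_insert, mem_singleton, not_or]
      exact ⟨(hqa i).symm, (hqb i).symm⟩
    · intro x
      rw [mD, ha, hb, mem_singleton]
      constructor
      · rintro (⟨i, h⟩ | h | ⟨i, h⟩)
        · exact Or.inr ⟨i, by rw [← h]; simp⟩
        · exact Or.inl h
        · exact Or.inr ⟨i, by rw [← h]; simp⟩
      · rintro (h | ⟨i, h⟩)
        · exact Or.inr (Or.inl h)
        · simp only [mem_insert, mem_singleton] at h
          rcases h with h | h
          · exact Or.inl ⟨i, h.symm⟩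
          · exact Or.inr (Or.inr ⟨i, h.symm⟩)
    · intro i
      rw [coe_singleton, cpair]
      exact ⟨z i, mem_seg_of_ray hinj hq2 (hz2 i) (hz3 i).le (hall i) (hlt q hq), hz1 i⟩
    · intro i j hij
      rw [cpair, cpair]
      exact hab i j hij
  · push Not at hall
    obtain ⟨i₀, hi₀⟩ := hall
    obtain ⟨m, -, hm⟩ := (univ : Finset (Fin l)).exists_max_image (fun i => f (z i)) ⟨i₀, mem_univ _⟩
    have hqm : f q < f (z m) := lt_of_lt_of_le hi₀ (hm i₀ (mem_univ _))
    have hseg : ∀ w, g w - s q * f w = g p - s q * f p → f p ≤ f w → f w ≤ f (z m) →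
        w ∈ convexHull ℝ (insert p ({a m, b m} : Set E)) := by
      intro w h1 h2 h3
      have h4 := mem_seg_of_ray hinj (hz2 m) h1 h2 h3 (hz3 m)
      refine convexHull_min ?_ (convex_convexHull ℝ _) h4
      rintro y (rfl | hy)
      · exact subset_convexHull ℝ _ (Set.mem_insert _ _)
      · rw [Set.mem_singleton_iff.1 hy]
        exact convexHull_mono (Set.subset_insert _ _) (hz1 m)
    refine ⟨{a m, b m}, fun i => if i = m then {q} else {a i, b i}, ?_, ?_, ?_, ?_, ?_⟩
    · intro i
      simp only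
      split_ifs
      · exact ⟨q, by simp⟩
      · exact ⟨a i, by simp⟩
    · intro i
      simp only
      split_ifs with h
      · rw [disjoint_singleton_right, mem_insert, mem_singleton, not_or]
        exact ⟨(hqa m).symm, (hqb m).symm⟩
      · apply disjoint_of_not_meet
        rw [cpair, cpair]
        exact hab m i (Ne.symm h)
    · intro x
      rw [mD, ha, hb]
      simp only
      constructor
      · rintro (⟨i, h⟩ | h | ⟨i, h⟩)
        · by_cases him : i = m
          · left
            rw [← h, him]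
            simp
          · right
            refine ⟨i, ?_⟩
            rw [if_neg him, ← h]
            simp
        · right
          refine ⟨m, ?_⟩
          rw [if_pos rfl, h]
          simp
        · by_cases him : i = m
          · left
            rw [← h, him]
            simp
          · right
            refine ⟨i, ?_⟩
            rw [if_neg him, ← h]
            simp
      · rintro (h | ⟨i, h⟩)
        · rw [mem_insert, mem_singleton] at h
          rcases h with h | h
          · exact Or.inl ⟨m, h.symm⟩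
          · exact Or.inr (Or.inr ⟨m, h.symm⟩)
        · split_ifs at h with him
          · exact Or.inr (Or.inl (mem_singleton.1 h))
          · rw [mem_insert, mem_singleton] at h
            rcases h with h | h
            · exact Or.inl ⟨i, h.symm⟩
            · exact Or.inr (Or.inr ⟨i, h.symm⟩)
    · intro i
      simp only
      rw [cpair]
      split_ifs with him
      · rw [coe_singleton]
        exact ⟨q, hseg q hq2 (hlt q hq).le hqm.le, subset_convexHull ℝ _ (Set.mem_singleton _)⟩
      · rw [cpair]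
        exact ⟨z i, hseg (z i) (hz2 i) (hz3 i).le (hm i (mem_univ _)), hz1 i⟩
    · intro i j hij
      simp only
      split_ifs with h1 h2 h2
      · exact absurd (h1.trans h2.symm) hij
      · rw [coe_singleton, cpair]
        rintro ⟨y, hy, hy'⟩
        rw [convexHull_singleton, Set.mem_singleton_iff] at hy
        rw [hy] at hy'
        exact hqseg j hy'
      · rw [coe_singleton, cpair]
        rintro ⟨y, hy', hy⟩
        rw [convexHull_singleton, Set.mem_singleton_iff] at hy
        rw [hy] at hy'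
        exact hqseg i hy'
      · rw [cpair, cpair]
        exact hab i j hij

end Pool.Agent.Helper71.TVP
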