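import Pool.Agent.Helper71.TVP.Slabs
import Pool.Agent.Helper71.TVP.PlaneStar
import Pool.Agent.Helper71.TVW.Inner

/-!
# Trees in the plane: the leaves are carved out of the slabs (MP_92efc2)
-/

set_option autoImplicit false

open Finset

namespace Pool.Agent.Helper71.TVP

open Pool.Agent.Helper33.TVT
open Pool.Agent.Helper71.TVW (inner leaf_unique exists_nbr nbr_inner inner_tree)

variable {E : Type*} [AddCommGroup E] [Module ℝ E]

/-- the hulls of two finite sets meet -/
abbrev M (A B : Finset E) : Prop := Meet (A : Set E) (B : Set E)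

theorem M.mono {A B A' B' : Finset E} (h : M A B) (hA : A ⊆ A') (hB : B ⊆ B') : M A' B' :=
  Meet.mono h (coe_subset.2 hA) (coe_subset.2 hB)

theorem M.symm {A B : Finset E} (h : M A B) : M B A := Meet.symm h

theorem M.left {A B : Finset E} (h : M A B) : A.Nonempty := by
  rcases A.eq_empty_or_nonempty with hA | hA
  · subst hA
    obtain ⟨x, hx, -⟩ := h
    simp at hx
  · exact hA

/-- the inner nodes that have a neighbour that is not an inner node -/
def supp {W : Type*} (T : SimpleGraph W) : Set W := {v | v ∈ inner T ∧ ∃ u, T.Adj v u ∧ u ∉ inner T}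

theorem tree_plane [FiniteDimensional ℝ E] (hE : Module.finrank ℝ E = 2) {W : Type} [Fintype W] {T : SimpleGraph W}
    (hT : T.IsTree) (hW : 3 ≤ Fintype.card W) {S : Finset E} (hS : GenPos 2 S)
    (hc : 2 * Fintype.card W + (inner T).ncard + (supp T).ncard ≤ S.card + 2) :
    ∃ P : W → Finset E, (∀ u, (P u).Nonempty) ∧ (∀ u u', u ≠ u' → Disjoint (P u) (P u')) ∧
      (∀ x, x ∈ S ↔ ∃ u, x ∈ P u) ∧ ∀ u u', u ≠ u' → (M (P u) (P u') ↔ T.Adj u u') := by
  classical
  -- the leaves at an inner node
  let Lf : inner T → Type := fun v => {u : W // u ∉ inner T ∧ T.Adj u v}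
  have : ∀ v, Fintype (Lf v) := fun v => Fintype.ofFinite _
  have : Fintype (inner T) := Fintype.ofFinite _
  let l : inner T → ℕ := fun v => Fintype.card (Lf v)
  let ev : ∀ v : inner T, Lf v ≃ Fin (l v) := fun v => Fintype.equivFin _
  let w : inner T → ℕ := fun v => if l v = 0 then 0 else 2 * l v + 1
  have hlsum : ∑ v, l v + Fintype.card (inner T) ≤ Fintype.card W := by
    have h1 : Fintype.card (Σ v : inner T, Lf v) = ∑ v, l v := Fintype.card_sigma
    rw [← h1, ← Fintype.card_sum]
    refine Fintype.card_le_of_injective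
      (fun x : (Σ v : inner T, Lf v) ⊕ inner T => x.elim (fun y => (y.2.1 : W)) fun y => (y : W)) ?_
    rintro (⟨v, u, hu, huv⟩ | ⟨v, hv⟩) (⟨v', u', hu', huv'⟩ | ⟨v', hv'⟩) h
    · simp only at h
      subst h
      have : v = v' := Subtype.ext (leaf_unique hu huv huv')
      subst this
      rfl
    · simp only at h
      subst h
      exact absurd hv' hu
    · simp only at h
      subst h
      exact absurd hv hu'
    · simp only at h
      subst h
      rfl
  have hcardI : Fintype.card (inner T) = (inner T).ncard := by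
    rw [← Nat.card_eq_fintype_card]
    rfl
  have hsupp : ∑ v : inner T, (if l v = 0 then 0 else 1) ≤ (supp T).ncard := by
    have h1 : ∑ v : inner T, (if l v = 0 then 0 else 1) = (univ.filter (fun v : inner T => l v ≠ 0)).card := by
      rw [card_filter]
      refine sum_congr rfl fun v _ => ?_
      by_cases h : l v = 0 <;> simp [h]
    rw [h1, ← card_map ⟨fun v : inner T => (v : W), Subtype.val_injective⟩, ← Set.ncard_coe_finset]
    refine Set.ncard_le_ncard ?_ (Set.toFinite _)
    intro x hx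
    simp only [coe_map, Function.Embedding.coeFn_mk, Set.mem_image, mem_coe, mem_filter, mem_univ, true_and] at hx
    obtain ⟨v, hv, rfl⟩ := hx
    obtain ⟨⟨u, hu, huv⟩⟩ := Fintype.card_pos_iff.1 (Nat.pos_of_ne_zero hv)
    exact ⟨v.2, u, huv.symm, hu⟩
  have hsum : ∑ v, (2 + 1 + w v) ≤ S.card + 2 := by
    have h1 : ∑ v, (2 + 1 + w v) = 3 * Fintype.card (inner T) + 2 * ∑ v, l v +
        ∑ v : inner T, (if l v = 0 then 0 else 1) := by
      rw [mul_sum, mul_comm, ← smul_eq_mul, ← card_univ, ← sum_const, ← sum_add_distrib, ← sum_add_distrib]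
      refine sum_congr rfl fun v _ => ?_
      simp only [w]
      by_cases h : l v = 0
      · simp [h]
      · simp only [if_neg h]
        ring
    rw [h1]
    omega
  have hS3 : 2 + 1 ≤ S.card := by omega
  obtain ⟨f, g, c, D, hfg, hD, hDc, hne, hpair⟩ := tree_slabs (d := 2) hE le_rfl (inner_tree hT hW) w (S := S) hS hS3 hsum
  have hinj := inj_plane hE hfg hS3
  have hDS : ∀ v, D v ⊆ S := fun v x hx => (hD v x hx).1
  -- the stars in the slabs
  have hstar : ∀ v : inner T, ∃ (Q : Finset E) (P : Fin (l v) → Finset E), (∀ i, (P i).Nonempty) ∧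
      (∀ i, Disjoint Q (P i)) ∧ (∀ x, x ∈ D v ↔ x ∈ Q ∨ ∃ i, x ∈ P i) ∧
      (∀ i, M (S.filter (fun x => c x = v ∧ x ∉ D v) ∪ Q) (P i)) ∧ ∀ i j, i ≠ j → ¬ M (P i) (P j) := by
    intro v
    by_cases h : l v = 0
    · have hD0 : D v = ∅ := by
        rw [← card_eq_zero, hDc v]
        simp only [w, if_pos h]
      have hno : ∀ i : Fin (l v), False := fun i => by
        have := i.2
        omega
      refine ⟨∅, fun _ => ∅, fun i => (hno i).elim, fun i => (hno i).elim, fun x => ?_, fun i => (hno i).elim,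
        fun i => (hno i).elim⟩
      rw [hD0]
      simp
    · have hwv : w v = 2 * l v + 1 := by simp only [w, if_neg h]
      obtain ⟨p, hpS, hpc, hpD, hlt⟩ := hne v
      obtain ⟨Q, P, q1, q2, q3, q4, q5⟩ := star_plane hinj hfg hpS (hDS v) hlt (l := l v) (by rw [hDc v, hwv])
      refine ⟨Q, P, q1, q2, q3, fun i => ?_, q5⟩
      refine Meet.mono (q4 i) ?_ subset_rfl
      intro x hx
      rw [coe_union]
      rcases hx with rfl | hx
      · exact Or.inl (mem_coe.2 (mem_filter.2 ⟨hpS, hpc, hpD⟩))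
      · exact Or.inr hx
  choose Q R hQ1 hQ2 hQ3 hQ4 hQ5 using hstar
  -- the inner neighbour of a leaf
  have hp : ∀ u : W, ∃ v : inner T, u ∉ inner T → T.Adj u v := by
    intro u
    by_cases hu : u ∈ inner T
    · exact ⟨⟨u, hu⟩, fun h => absurd hu h⟩
    · obtain ⟨p, hp⟩ := exists_nbr hT.connected (by omega) u
      exact ⟨⟨p, nbr_inner hT.connected hW hu hp⟩, fun _ => hp⟩
  choose p hp using hp
  -- the parts
  let Pi : inner T → Finset E := fun v => (S.filter (fun x => c x = v ∧ x ∉ D v)) ∪ Q v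
  let Pl : (v : inner T) → Lf v → Finset E := fun v u => R v (ev v u)
  let P : W → Finset E := fun u => if h : u ∈ inner T then Pi ⟨u, h⟩ else Pl (p u) ⟨u, h, hp u h⟩
  have hPi : ∀ v : inner T, P v = Pi v := fun v => by
    simp only [P, dif_pos v.2]
  have hPl : ∀ u : W, ∀ h : u ∉ inner T, P u = Pl (p u) ⟨u, h, hp u h⟩ := fun u h => by
    simp only [P, dif_neg h]
  have hPl' : ∀ (v : inner T) (u : Lf v), P u.1 = Pl v u := by
    rintro v ⟨u, hu, huv⟩
    rw [hPl u hu]
    have hpv : p u = v := Subtype.ext (leaf_unique hu (hp u hu) huv)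
    subst hpv
    rfl
  have hQD : ∀ v, Q v ⊆ D v := fun v x hx => (hQ3 v x).2 (Or.inl hx)
  have hRD : ∀ v i, R v i ⊆ D v := fun v i x hx => (hQ3 v x).2 (Or.inr ⟨i, hx⟩)
  have hcls : ∀ v : inner T, ((S.filter (fun x => c x = v) : Finset E) : Set E) = {x | x ∈ S ∧ c x = v} := by
    intro v
    ext x
    simp
  have hcore : ∀ v : inner T, ((S.filter (fun x => c x = v ∧ x ∉ D v) : Finset E) : Set E) =
      {x | x ∈ S ∧ c x = v ∧ x ∉ D v} := by
    intro v
    ext x
    simp
  have hDcls : ∀ v, D v ⊆ S.filter (fun x => c x = v) := fun v x hx => mem_filter.2 (hD v x hx)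
  have hPicls : ∀ v, Pi v ⊆ S.filter (fun x => c x = v) := by
    intro v x hx
    rcases mem_union.1 hx with hx | hx
    · rw [mem_filter] at hx ⊢
      exact ⟨hx.1, hx.2.1⟩
    · exact hDcls v (hQD v hx)
  have hPlD : ∀ v u, Pl v u ⊆ D v := fun v u => hRD v _
  -- the relations of the classes
  have r1 : ∀ u v : inner T, u ≠ v → T.Adj u v → M (Pi u) (Pi v) := by
    intro u v huv hadj
    have h1 := (hpair u v huv).1 hadj
    rw [← hcore u, ← hcore v] at h1
    exact M.mono h1 subset_union_left subset_union_left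
  have r2 : ∀ u v : inner T, u ≠ v → ¬ T.Adj u v → ∀ A B : Finset E, A ⊆ S.filter (fun x => c x = u) →
      B ⊆ S.filter (fun x => c x = v) → ¬ M A B := by
    intro u v huv hadj A B hA hB hm
    have h1 := (hpair u v huv).2.1 hadj
    rw [← hcls u, ← hcls v] at h1
    exact h1 (M.mono hm hA hB)
  have r3 : ∀ u v : inner T, u ≠ v → ∀ A B : Finset E, A ⊆ S.filter (fun x => c x = u) →
      B ⊆ D v → ¬ M A B := by
    intro u v huv A B hA hB hm
    have h1 := (hpair u v huv).2.2
    rw [← hcls u] at h1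
    exact h1 (M.mono hm hA hB)
  -- every node is inner or a leaf
  have hcase : ∀ u : W, (∃ v : inner T, u = v) ∨ ∃ (v : inner T) (x : Lf v), u = x.1 := by
    intro u
    by_cases h : u ∈ inner T
    · exact Or.inl ⟨⟨u, h⟩, rfl⟩
    · exact Or.inr ⟨p u, ⟨u, h, hp u h⟩, rfl⟩
  -- inner against leaf
  have hil : ∀ (a v : inner T) (x : Lf v), M (Pi a) (Pl v x) ↔ T.Adj a x.1 := by
    intro a v x
    by_cases hav : a = v
    · subst hav
      refine ⟨fun _ => x.2.2.symm, fun _ => ?_⟩
      exact hQ4 a (ev a x)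
    · refine ⟨fun h => absurd h (r3 a v hav _ _ (hPicls a) (hPlD v x)), fun h => ?_⟩
      exact absurd (Subtype.ext (leaf_unique x.2.1 h.symm x.2.2)) hav
  refine ⟨P, ?_, ?_, ?_, ?_⟩
  · intro u
    rcases hcase u with ⟨v, rfl⟩ | ⟨v, x, rfl⟩
    · rw [hPi]
      obtain ⟨x, hx1, hx2, hx3, -⟩ := hne v
      exact ⟨x, mem_union_left _ (mem_filter.2 ⟨hx1, hx2, hx3⟩)⟩
    · rw [hPl']
      exact hQ1 v (ev v x)
  · intro u u' huu
    rcases hcase u with ⟨v, rfl⟩ | ⟨v, x, rfl⟩
    · rcases hcase u' with ⟨v', rfl⟩ | ⟨v', x', rfl⟩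
      · rw [hPi, hPi, disjoint_left]
        intro y hy hy'
        have h1 := (mem_filter.1 (hPicls v hy)).2
        have h2 := (mem_filter.1 (hPicls v' hy')).2
        exact huu (by rw [← h1, h2])
      · rw [hPi, hPl', disjoint_left]
        intro y hy hy'
        have h1 := (mem_filter.1 (hPicls v hy)).2
        have h2 := (hD v' y (hPlD v' x' hy')).2
        have h3 : v = v' := by rw [← h1, h2]
        subst h3
        rcases mem_union.1 hy with hy | hy
        · exact (mem_filter.1 hy).2.2 (hPlD v x' hy')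
        · exact disjoint_left.1 (hQ2 v (ev v x')) hy hy'
    · rcases hcase u' with ⟨v', rfl⟩ | ⟨v', x', rfl⟩
      · rw [hPi, hPl', disjoint_left]
        intro y hy' hy
        have h1 := (mem_filter.1 (hPicls v' hy)).2
        have h2 := (hD v y (hPlD v x hy')).2
        have h3 : v' = v := by rw [← h1, h2]
        subst h3
        rcases mem_union.1 hy with hy | hy
        · exact (mem_filter.1 hy).2.2 (hPlD v' x hy')
        · exact disjoint_left.1 (hQ2 v' (ev v' x)) hy hy'
      · rw [hPl', hPl', disjoint_left]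
        intro y hy hy'
        have h1 := (hD v y (hPlD v x hy)).2
        have h2 := (hD v' y (hPlD v' x' hy')).2
        have h3 : v = v' := by rw [← h1, h2]
        subst h3
        refine disjoint_left.1 (disjoint_of_not_meet (hQ5 v (ev v x) (ev v x') fun h => huu ?_)) hy hy'
        rw [(ev v).injective h]
  · intro y
    constructor
    · intro hy
      by_cases h : y ∈ D (c y)
      · rcases (hQ3 (c y) y).1 h with hi | ⟨j, hj⟩
        · refine ⟨c y, ?_⟩
          rw [hPi]
          exact mem_union_right _ hi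
        · refine ⟨((ev (c y)).symm j).1, ?_⟩
          rw [hPl']
          show y ∈ R (c y) (ev (c y) ((ev (c y)).symm j))
          rw [Equiv.apply_symm_apply]
          exact hj
      · refine ⟨c y, ?_⟩
        rw [hPi]
        exact mem_union_left _ (mem_filter.2 ⟨hy, rfl, h⟩)
    · rintro ⟨u, hu⟩
      rcases hcase u with ⟨v, rfl⟩ | ⟨v, x, rfl⟩
      · rw [hPi] at hu
        exact (mem_filter.1 (hPicls v hu)).1
      · rw [hPl'] at hu
        exact hDS v (hPlD v x hu)
  · intro u u' huu
    rcases hcase u with ⟨v, rfl⟩ | ⟨v, x, rfl⟩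
    · rcases hcase u' with ⟨v', rfl⟩ | ⟨v', x', rfl⟩
      · rw [hPi, hPi]
        have hvv : v ≠ v' := fun h => huu (by rw [h])
        refine ⟨fun h => ?_, r1 v v' hvv⟩
        by_contra hcon
        exact r2 v v' hvv hcon _ _ (hPicls v) (hPicls v') h
      · rw [hPi, hPl']
        exact hil v v' x'
    · rcases hcase u' with ⟨v', rfl⟩ | ⟨v', x', rfl⟩
      · rw [hPi, hPl', T.adj_comm, ← hil v' v x]
        exact ⟨M.symm, M.symm⟩
      · rw [hPl', hPl']
        refine ⟨fun h => ?_, fun h => absurd (nbr_inner hT.connected hW x.2.1 h) x'.2.1⟩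
        exfalso
        by_cases hvv : v = v'
        · subst hvv
          have hne' : ev v x ≠ ev v x' := fun h => huu (by
            rw [(ev v).injective h])
          exact hQ5 v _ _ hne' h
        · exact r3 v v' hvv _ _ ((hPlD v x).trans (hDcls v)) (hPlD v' x') h

end Pool.Agent.Helper71.TVP
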