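import Pool.Agent.Helper71.TVP.Place

/-!
# Placing forests with slabs: at least two roots, and the induction (MP_92efc2)
-/

set_option autoImplicit false

namespace Pool.Agent.Helper71.TVP

open Finset Pool.Agent.Helper33.TVT

variable {E : Type*} [AddCommGroup E] [Module ℝ E] {V : Type*}

/-- a forest with at least two roots -/
theorem place_node {f g : E →ₗ[ℝ] ℝ} {d : ℕ} {w : V → ℕ} {v : V} {l r : BT V} (hnd : (BT.node v l r).verts.Nodup)
    (hr : r ≠ BT.nil) (h1 : Place f g d w (BT.node v l BT.nil)) (h2 : Place f g d w r) :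
    Place f g d w (BT.node v l r) := by
  classical
  intro N F S q hS hG hlt hN hF _
  have hnr : 1 ≤ r.nr := by
    rcases r with _ | ⟨w, l', r'⟩
    · exact absurd rfl hr
    · simp only [BT.nr]; omega
  have hsz := nr_le_dem d w r
  have eS : S = N ∪ F := by
    ext x
    rw [hS, mem_union]
  have hN1 : N.card = (d + 1) * r.nr + (d + 1) := by rw [hN]; simp only [BT.nr]; ring
  have hF1 : dem d w l + dem d w r + (d + 1 + w v) ≤ F.card + N.card := hF
  have hm2 : (d + 1) * 1 ≤ (d + 1) * r.nr := Nat.mul_le_mul_left _ hnr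
  obtain ⟨H, hH, hH', ⟨N₁, hN₁, hN₁'⟩, F₁, hF₁, hF₁'⟩ := cut (f := f) (g := g) (N := N) (F := F) (eS ▸ hG) hlt
    (a := d + 1) (b := dem d w l + w v) (by omega) (by omega) (by omega)
  have hNF : ∀ x, x ∈ N → x ∉ F := fun x hx hx' => lt_irrefl _ (hlt x hx x hx')
  have sN₁ : N₁ ⊆ N := fun x hx => ((hN₁' x).1 hx).1
  have sF₁ : F₁ ⊆ F := fun x hx => ((hF₁' x).1 hx).1
  have mN₂ : ∀ x, x ∈ N \ N₁ ↔ x ∈ N ∧ x ∉ H := by
    intro x
    rw [mem_sdiff, hN₁']
    tauto
  have mF₂ : ∀ x, x ∈ F \ F₁ ↔ x ∈ F ∧ x ∉ H := by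
    intro x
    rw [mem_sdiff, hF₁']
    tauto
  have cN₂ : (N \ N₁).card = (d + 1) * r.nr := by
    rw [card_sdiff_of_subset sN₁, hN₁, hN1]
    omega
  have cF₂ : (F \ F₁).card = F.card - (dem d w l + w v) := by
    rw [card_sdiff_of_subset sF₁, hF₁]
  have cF₂' : dem d w l + w v ≤ F.card := by
    rw [← hF₁]
    exact card_le_card sF₁
  obtain ⟨c₁, D₁, p1, p2, p3, p4, p5, p6⟩ := h1 N₁ F₁ (N₁ ∪ F₁) q (fun x => mem_union) (hG.mono (by
    rw [eS]; exact union_subset_union sN₁ sF₁)) (fun x hx y hy => hlt x (sN₁ hx) y (sF₁ hy)) (by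
      rw [hN₁]; simp [BT.nr]) (by
      rw [hN₁, hF₁]; simp only [dem]; apply le_of_eq; ring) (fun h => by cases h)
  obtain ⟨c₂, D₂, q1, q2, q3, q4, q5, q6⟩ := h2 (N \ N₁) (F \ F₁) ((N \ N₁) ∪ (F \ F₁)) q (fun x => mem_union)
    (hG.mono (by
    rw [eS]; exact union_subset_union sdiff_subset sdiff_subset)) (fun x hx y hy => hlt x (sdiff_subset hx) y
      (sdiff_subset hy)) cN₂ (by rw [cN₂, cF₂]; omega) (fun h => absurd h hr)
  -- labels
  have hnd' : v ∉ l.verts ∧ v ∉ r.verts ∧ l.verts.Nodup ∧ r.verts.Nodup ∧ ∀ x ∈ l.verts, x ∉ r.verts := by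
    simp only [BT.verts, List.nodup_cons, List.mem_append, not_or, List.nodup_append] at hnd
    refine ⟨hnd.1.1, hnd.1.2, hnd.2.1, hnd.2.2.1, fun x hx hx' => hnd.2.2.2 x hx x hx' rfl⟩
  have hfst : ∀ x, x ∈ (BT.node v l BT.nil).verts ↔ x = v ∨ x ∈ l.verts := by
    intro x
    simp only [BT.verts, List.append_nil, List.mem_cons]
  have hsep : ∀ x ∈ (BT.node v l BT.nil).verts, x ∉ r.verts := by
    intro x hx
    rw [hfst] at hx
    rcases hx with rfl | hx
    · exact hnd'.2.1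
    · exact hnd'.2.2.2.2 x hx
  have hall : ∀ x, x ∈ (BT.node v l r).verts ↔ x ∈ (BT.node v l BT.nil).verts ∨ x ∈ r.verts := by
    intro x
    rw [hfst]
    simp only [BT.verts, List.mem_cons, List.mem_append]
    tauto
  let c : E → Option V := fun x => if x ∈ H then c₁ x else c₂ x
  let D : V → Finset E := fun u => if u ∈ r.verts then D₂ u else D₁ u
  have dD₁ : ∀ u ∈ (BT.node v l BT.nil).verts, D u = D₁ u := fun u hu => by simp only [D, if_neg (hsep u hu)]
  have dD₂ : ∀ u ∈ r.verts, D u = D₂ u := fun u hu => by simp only [D, if_pos hu]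
  have cH : ∀ x, x ∈ H → c x = c₁ x := fun x hx => by simp only [c, if_pos hx]
  have cH' : ∀ x, x ∉ H → c x = c₂ x := fun x hx => by simp only [c, if_neg hx]
  have mS₁ : ∀ x, x ∈ N₁ ∪ F₁ ↔ x ∈ S ∧ x ∈ H := by
    intro x
    rw [mem_union, hN₁', hF₁', hS]
    tauto
  have mS₂ : ∀ x, x ∈ (N \ N₁) ∪ (F \ F₁) ↔ x ∈ S ∧ x ∉ H := by
    intro x
    rw [mem_union, mN₂, mF₂, hS]
    tauto
  have cl₁ : ∀ u ∈ (BT.node v l BT.nil).verts, cls c S (some u) = cls c₁ (N₁ ∪ F₁) (some u) := by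
    intro u hu
    ext x
    rw [mem_cls, mem_cls, mS₁]
    constructor
    · rintro ⟨hx, hc⟩
      by_cases hxH : x ∈ H
      · rw [cH x hxH] at hc
        exact ⟨⟨hx, hxH⟩, hc⟩
      · rw [cH' x hxH] at hc
        exact absurd (q1 x ((mS₂ x).2 ⟨hx, hxH⟩) u hc) (hsep u hu)
    · rintro ⟨⟨hx, hxH⟩, hc⟩
      exact ⟨hx, by rw [cH x hxH, hc]⟩
  have cl₂ : ∀ u ∈ r.verts, cls c S (some u) = cls c₂ ((N \ N₁) ∪ (F \ F₁)) (some u) := by
    intro u hu
    ext x
    rw [mem_cls, mem_cls, mS₂]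
    constructor
    · rintro ⟨hx, hc⟩
      by_cases hxH : x ∈ H
      · rw [cH x hxH] at hc
        exact absurd hu (hsep u (p1 x ((mS₁ x).2 ⟨hx, hxH⟩) u hc))
      · rw [cH' x hxH] at hc
        exact ⟨⟨hx, hxH⟩, hc⟩
    · rintro ⟨⟨hx, hxH⟩, hc⟩
      exact ⟨hx, by rw [cH' x hxH, hc]⟩
  have n₁ : cls c₁ N₁ none ⊆ cls c N none := by
    intro x hx
    rw [mem_cls, hN₁'] at hx
    rw [mem_cls]
    exact ⟨hx.1.1, by rw [cH x hx.1.2, hx.2]⟩
  have n₂ : cls c₂ (N \ N₁) none ⊆ cls c N none := by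
    intro x hx
    rw [mem_cls, mN₂] at hx
    rw [mem_cls]
    exact ⟨hx.1.1, by rw [cH' x hx.1.2, hx.2]⟩
  refine ⟨c, D, ?_, ?_, ?_, ?_, ?_, ?_⟩
  · intro x hx u hu
    rw [hall]
    by_cases hxH : x ∈ H
    · rw [cH x hxH] at hu
      exact Or.inl (p1 x ((mS₁ x).2 ⟨hx, hxH⟩) u hu)
    · rw [cH' x hxH] at hu
      exact Or.inr (q1 x ((mS₂ x).2 ⟨hx, hxH⟩) u hu)
  · intro x hx
    by_cases hxH : x ∈ H
    · rw [cH x hxH]
      exact p2 x ((hF₁' x).2 ⟨hx, hxH⟩)
    · rw [cH' x hxH]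
      exact q2 x ((mF₂ x).2 ⟨hx, hxH⟩)
  · intro u hu
    rcases (hall u).1 hu with hu | hu
    · rw [cl₁ u hu, dD₁ u hu]
      exact ⟨(p3 u hu).1.trans sF₁, (p3 u hu).2⟩
    · rw [cl₂ u hu, dD₂ u hu]
      exact ⟨(q3 u hu).1.trans sdiff_subset, (q3 u hu).2⟩
  · intro u hu hur x hx hc
    simp only [BT.roots, List.mem_cons, not_or] at hur
    by_cases hxH : x ∈ H
    · rw [cH x hxH] at hc
      have hu' := p1 x ((mS₁ x).2 ⟨(hS x).2 (Or.inl hx), hxH⟩) u hc
      exact p4 u hu' (by simp only [BT.roots, List.mem_cons, List.not_mem_nil, or_false]; exact hur.1) x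
        ((hN₁' x).2 ⟨hx, hxH⟩) hc
    · rw [cH' x hxH] at hc
      have hu' := q1 x ((mS₂ x).2 ⟨(hS x).2 (Or.inl hx), hxH⟩) u hc
      exact q4 u hu' hur.2 x ((mN₂ x).2 ⟨hx, hxH⟩) hc
  · intro u hu
    simp only [BT.roots, List.mem_cons] at hu
    rcases hu with rfl | hu
    · rw [cl₁ u ((hfst u).2 (Or.inl rfl)), dD₁ u ((hfst u).2 (Or.inl rfl))]
      refine (p5 u (by simp only [BT.roots, List.mem_cons, true_or])).mono (Set.insert_subset_insert ?_) subset_rfl
      exact coe_subset.2 n₁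
    · rw [cl₂ u (r.roots_subset u hu), dD₂ u (r.roots_subset u hu)]
      refine (q5 u hu).mono (Set.insert_subset_insert ?_) subset_rfl
      exact coe_subset.2 n₂
  · have hrel₁ : ∀ a b, a ∈ (BT.node v l BT.nil).verts → b ∈ (BT.node v l BT.nil).verts →
        ((BT.node v l r).rel a b ↔ (BT.node v l BT.nil).rel a b) := by
      intro a b ha hb
      simp only [BT.rel, or_false]
      have : ¬ r.rel a b := fun h => hsep a ha (r.rel_mem h).1
      tauto
    have hrel₂ : ∀ a b, a ∈ r.verts → b ∈ r.verts → ((BT.node v l r).rel a b ↔ r.rel a b) := by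
      intro a b ha hb
      simp only [BT.rel]
      have h3 : ¬ (a = v ∧ b ∈ l.roots) := fun h => hnd'.2.1 (h.1 ▸ ha)
      have h4 : ¬ l.rel a b := fun h => hnd'.2.2.2.2 a (l.rel_mem h).1 ha
      tauto
    have hrel₃ : ∀ a b, a ∈ (BT.node v l BT.nil).verts → b ∈ r.verts →
        ¬ (BT.node v l r).rel a b ∧ ¬ (BT.node v l r).rel b a := by
      intro a b ha hb
      simp only [BT.rel]
      constructor
      · rintro (⟨_, h⟩ | h | h)
        · exact hnd'.2.2.2.2 b (l.roots_subset b h) hb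
        · exact hnd'.2.2.2.2 b (l.rel_mem h).2 hb
        · exact hsep a ha (r.rel_mem h).1
      · rintro (⟨h, _⟩ | h | h)
        · exact hnd'.2.1 (h ▸ hb)
        · exact hnd'.2.2.2.2 b (l.rel_mem h).1 hb
        · exact hsep a ha (r.rel_mem h).2
    have hno : ∀ a b, a ∈ (BT.node v l BT.nil).verts → b ∈ r.verts → ∀ A B : Finset E,
        A ⊆ cls c S (some a) → B ⊆ cls c S (some b) → ¬ Meet (A : Set E) (B : Set E) := by
      intro a b ha hb A B hA hB
      rw [cl₁ a ha] at hA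
      rw [cl₂ b hb] at hB
      refine not_meet_of_convex hH hH' ?_ ?_
      · intro x hx
        exact ((mS₁ x).1 (mem_cls.1 (hA hx)).1).2
      · intro x hx
        exact ((mS₂ x).1 (mem_cls.1 (hB hx)).1).2
    have hDc : ∀ a ∈ (BT.node v l r).verts, D a ⊆ cls c S (some a) := by
      intro a ha
      rcases (hall a).1 ha with ha | ha
      · rw [cl₁ a ha, dD₁ a ha]
        exact (p3 a ha).2.1
      · rw [cl₂ a ha, dD₂ a ha]
        exact (q3 a ha).2.1
    intro a ha' b hb' hab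
    rcases (hall a).1 ha' with ha | ha
    · rcases (hall b).1 hb' with hb | hb
      · have h5 := p6 a ha b hb hab
        unfold PairOK at h5 ⊢
        rw [cl₁ a ha, cl₁ b hb, dD₁ a ha, dD₁ b hb, hrel₁ a b ha hb, hrel₁ b a hb ha]
        exact h5
      · have h3 := hrel₃ a b ha hb
        exact ⟨fun h => absurd h (not_or.2 h3), fun _ => hno a b ha hb _ _ Subset.rfl Subset.rfl,
          hno a b ha hb _ _ Subset.rfl (hDc b hb')⟩
    · rcases (hall b).1 hb' with hb | hb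
      · have h3 := hrel₃ b a hb ha
        exact ⟨fun h => absurd h (not_or.2 ⟨h3.2, h3.1⟩),
          fun _ h => hno b a hb ha _ _ Subset.rfl Subset.rfl h.symm,
          fun h => hno b a hb ha _ _ (hDc b hb') Subset.rfl h.symm⟩
      · have h5 := q6 a ha b hb hab
        unfold PairOK at h5 ⊢
        rw [cl₂ a ha, cl₂ b hb, dD₂ a ha, dD₂ b hb, hrel₂ a b ha hb, hrel₂ b a hb ha]
        exact h5

/-- **every forest can be placed** -/
theorem place [FiniteDimensional ℝ E] (f g : E →ₗ[ℝ] ℝ) {d : ℕ} (hd : Module.finrank ℝ E = d) (w : V → ℕ) (t : BT V)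
    (ht : t.verts.Nodup) : Place f g d w t := by
  induction t with
  | nil => exact place_nil f g d w
  | node v l r ihl ihr =>
    have hnd := ht
    simp only [BT.verts, List.nodup_cons, List.mem_append, not_or, List.nodup_append] at hnd
    have h1 := place_tree hd (f := f) (g := g) hnd.1.1 (attach_of_place (ihl hnd.2.1))
    by_cases hr : r = BT.nil
    · rw [hr]; exact h1
    · exact place_node ht hr h1 (ihr hnd.2.2.1)

end Pool.Agent.Helper71.TVP
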